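import Pool.Agent.Helper346.Bra.StDefs
import Pool.Agent.Helper346.Bra.StDefs5
import Pool.Agent.Helper346.Bra.Fin5

set_option autoImplicit false

namespace Pool.Agent.Results.MP_358a28_ag.FiveTorsion

open Pool.Agent.Helper346.Bra

/-- There is a del Pezzo surface of degree one over `ℂ(t)` such that the unramified Brauer group
over `ℂ` of its function field has an element of order five. -/
theorem result : ∃ F : MvPolynomial (Fin 4) (RatFunc ℂ), IsDelPezzoOne (RatFunc ℂ) F ∧
    ∃ (K : Type) (_ : Field K) (_ : Algebra (affRing1 (RatFunc ℂ) F) K) (_ : Algebra ℂ K),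
      IsFractionRing (affRing1 (RatFunc ℂ) F) K ∧
      IsScalarTower ℂ (affRing1 (RatFunc ℂ) F) K ∧
      HasUnramifiedOrderFive ℂ K :=
  main_result5 ℂ

end Pool.Agent.Results.MP_358a28_ag.FiveTorsion
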